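import Mathlib
import Pool.Agent.N938.CS.Ult
import Pool.Agent.N284.CS.Ideal

/-! Ultrafilters on words and on variable words, with which the regular subtrees are built. -/

set_option autoImplicit false

namespace Pool.Agent.J6H52.Branch

open Filter

variable {k : ℕ}

/-- The ultrafilters: `U t` consists of sets of words beginning with `t`, `V` of sets of variable words. -/
theorem exists_ultra (hk : 0 < k) : ∃ (V : Ultrafilter (List (Option (Fin k))))
    (U : List (Fin k) → Ultrafilter (List (Fin k))),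
    (∀ᶠ w in (V : Filter (List (Option (Fin k)))), none ∈ w) ∧
    (∀ t s, s ∈ U t → {y | s ∈ U y} ∈ U t) ∧
    (∀ t s, s ∈ U t → ∀ b : Fin k, ∀ᶠ w in (V : Filter (List (Option (Fin k)))),
      t ++ w.map (fun o => o.getD b) ∈ s) ∧
    (∀ t, {y | t <+: y ∧ t ≠ y} ∈ U t) := by
  obtain ⟨e, f, hf, he, hfab⟩ := Pool.Agent.N938.CS.t_ult Pool.Agent.N284.CS.t_ideal k hk
  set a0 : Fin k := ⟨0, hk⟩ with ha0
  refine ⟨(f a0).bind (fun x => e.map (fun w => x.map some ++ w)),
    fun t => (f a0).map (fun x => t ++ x), ?_, ?_, ?_, ?_⟩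
  · change {x | {w : List (Option (Fin k)) | none ∈ w} ∈ e.map (fun w => List.map some x ++ w)} ∈ f a0
    refine Filter.Eventually.of_forall fun x => ?_
    change {w : List (Option (Fin k)) | none ∈ List.map some x ++ w} ∈ e
    filter_upwards [he] with w hw
    obtain ⟨w', rfl⟩ := hw
    simp
  · intro t s hs
    change {x | t ++ x ∈ s} ∈ f a0 at hs
    have h1 := hfab a0 a0 _ hs
    change {x | {y | t ++ x ++ y ∈ s} ∈ f a0} ∈ f a0
    filter_upwards [h1] with x hx
    change {y | t ++ (x ++ y) ∈ s} ∈ f a0 at hx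
    simpa only [List.append_assoc] using hx
  · intro t s hs b
    change {x | t ++ x ∈ s} ∈ f a0 at hs
    have h1 := hfab a0 b _ hs
    change {x | {w : List (Option (Fin k)) | t ++ (List.map some x ++ w).map (fun o => o.getD b) ∈ s} ∈ e}
      ∈ f a0
    filter_upwards [h1] with x hx
    change {y | t ++ (x ++ y) ∈ s} ∈ f b at hx
    rw [hf b] at hx
    change {w | t ++ (x ++ List.map (fun o => o.getD b) w) ∈ s} ∈ e at hx
    filter_upwards [hx] with w hw
    change t ++ (x ++ List.map (fun o => o.getD b) w) ∈ s at hw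
    rw [List.map_append, List.map_map]
    have h2 : List.map ((fun o : Option (Fin k) => o.getD b) ∘ some) x = x := by
      conv_rhs => rw [← List.map_id x]
      apply List.map_congr_left
      intro c _
      rfl
    rw [h2]
    exact hw
  · intro t
    change {x | t <+: t ++ x ∧ t ≠ t ++ x} ∈ f a0
    rw [hf a0]
    change {w | t <+: t ++ List.map (fun o : Option (Fin k) => o.getD a0) w ∧
      t ≠ t ++ List.map (fun o : Option (Fin k) => o.getD a0) w} ∈ e
    filter_upwards [he] with w hw
    obtain ⟨w', rfl⟩ := hw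
    refine ⟨List.prefix_append _ _, fun h => ?_⟩
    have h1 := congrArg List.length h
    simp at h1

/-- Sequences of words built successively. -/
theorem chain {U : List (Fin k) → Ultrafilter (List (Fin k))}
    (hcoh : ∀ t s, s ∈ U t → {y | s ∈ U y} ∈ U t) (hext : ∀ t, {y | t <+: y ∧ t ≠ y} ∈ U t)
    (Φ : Finset (List (Fin k)) → List (Fin k) → Set (List (Fin k))) (hΦ : ∀ Q t, Φ Q t ∈ U t)
    (t0 : List (Fin k)) :
    ∃ y : ℕ → List (Fin k), y 0 = t0 ∧ (∀ i, y i <+: y (i + 1) ∧ y i ≠ y (i + 1)) ∧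
      ∀ i i', i' ≤ i → y (i + 1) ∈ Φ ((Finset.range (i' + 1)).image y) (y i') := by
  classical
  have step : ∀ q : {q : List (Fin k) × Finset (List (Fin k)) × Set (List (Fin k)) // q.2.2 ∈ U q.1},
      ∃ y, y ∈ q.1.2.2 ∧ q.1.2.2 ∈ U y ∧ q.1.1 <+: y ∧ q.1.1 ≠ y := by
    intro q
    have h1 : ∀ᶠ y in (U q.1.1 : Filter (List (Fin k))), y ∈ q.1.2.2 := q.2
    have h2 : ∀ᶠ y in (U q.1.1 : Filter (List (Fin k))), q.1.2.2 ∈ U y := hcoh _ _ q.2
    have h3 : ∀ᶠ y in (U q.1.1 : Filter (List (Fin k))), q.1.1 <+: y ∧ q.1.1 ≠ y := hext _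
    obtain ⟨y, h4, h5, h6⟩ := (h1.and (h2.and h3)).exists
    exact ⟨y, h4, h5, h6⟩
  choose g hg1 hg2 hg3 hg4 using step
  let nx : {q : List (Fin k) × Finset (List (Fin k)) × Set (List (Fin k)) // q.2.2 ∈ U q.1} →
      {q : List (Fin k) × Finset (List (Fin k)) × Set (List (Fin k)) // q.2.2 ∈ U q.1} := fun q =>
    ⟨(g q, insert (g q) q.1.2.1, q.1.2.2 ∩ Φ (insert (g q) q.1.2.1) (g q)),
      Filter.inter_mem (hg2 q) (hΦ _ _)⟩
  let st : ℕ → {q : List (Fin k) × Finset (List (Fin k)) × Set (List (Fin k)) // q.2.2 ∈ U q.1} :=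
    fun i => Nat.rec ⟨(t0, {t0}, Φ {t0} t0), hΦ _ _⟩ (fun _ q => nx q) i
  have hst : ∀ i, st (i + 1) = nx (st i) := fun i => rfl
  have hQ : ∀ i, (st i).1.2.1 = (Finset.range (i + 1)).image (fun i => (st i).1.1) := by
    intro i
    induction i with
    | zero => simp [st]
    | succ i ih =>
      rw [Finset.range_add_one, Finset.image_insert, ← ih, hst]
  have hD : ∀ i, (st i).1.2.2 ⊆ Φ (st i).1.2.1 (st i).1.1 := by
    intro i
    cases i with
    | zero => exact subset_rfl
    | succ i => exact Set.inter_subset_right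
  have hDanti : ∀ i i', i' ≤ i → (st i).1.2.2 ⊆ (st i').1.2.2 := by
    intro i i' h
    induction i, h using Nat.le_induction with
    | base => exact subset_rfl
    | succ i _ ih => exact Set.inter_subset_left.trans ih
  refine ⟨fun i => (st i).1.1, rfl, fun i => ⟨hg3 _, hg4 _⟩, fun i i' h => ?_⟩
  rw [← hQ i']
  exact hD i' (hDanti i i' h (hg1 (st i)))

theorem chain_prefix {y : ℕ → List (Fin k)} (hy : ∀ i, y i <+: y (i + 1) ∧ y i ≠ y (i + 1)) {i i' : ℕ}
    (h : i ≤ i') : y i <+: y i' := by
  induction i', h using Nat.le_induction with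
  | base => exact List.prefix_rfl
  | succ i' _ ih => exact ih.trans (hy i').1

theorem chain_length {y : ℕ → List (Fin k)} (hy : ∀ i, y i <+: y (i + 1) ∧ y i ≠ y (i + 1)) :
    StrictMono (fun i => (y i).length) := by
  refine strictMono_nat_of_lt_succ fun i => ?_
  rcases Nat.lt_or_ge (y i).length (y (i + 1)).length with h | h
  · exact h
  · exact absurd ((hy i).1.eq_of_length_le h) (hy i).2

/-- The words of a chain are the initial segments of one infinite word. -/
theorem chain_branch {y : ℕ → List (Fin k)} (hy : ∀ i, y i <+: y (i + 1) ∧ y i ≠ y (i + 1)) :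
    ∃ a : ℕ → Fin k, ∀ i, (List.range (y i).length).map a = y i := by
  have hlen : ∀ n, n < (y (n + 1)).length := by
    intro n
    exact (Nat.lt_succ_self n).trans_le ((chain_length hy).id_le (n + 1))
  refine ⟨fun n => (y (n + 1))[n]'(hlen n), fun i => ?_⟩
  apply List.ext_getElem
  · simp
  · intro n h1 h2
    simp only [List.getElem_map, List.getElem_range]
    rcases le_total (n + 1) i with h3 | h3
    · exact (chain_prefix hy h3).getElem (hlen n)
    · exact ((chain_prefix hy h3).getElem h2).symm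

/-- Every value of a labelling which is finite-to-one along the branches is almost never taken. -/
theorem ne_form {U : List (Fin k) → Ultrafilter (List (Fin k))}
    (hcoh : ∀ t s, s ∈ U t → {y | s ∈ U y} ∈ U t) (hext : ∀ t, {y | t <+: y ∧ t ≠ y} ∈ U t)
    {β : Type} (p : List (Fin k) → β) (f : β)
    (hfin : ∀ a : ℕ → Fin k, {n : ℕ | p ((List.range n).map a) = f}.Finite) (t : List (Fin k)) :
    {y | p y ≠ f} ∈ U t := by
  classical
  by_contra hcon
  have hA : {y | p y = f} ∈ U t := by
    rw [← Ultrafilter.compl_mem_iff_notMem] at hcon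
    filter_upwards [hcon] with y hy
    simpa using hy
  obtain ⟨y, hy0, hy, hyΦ⟩ := chain hcoh hext (fun _ t' => {y | {y | p y = f} ∈ U t' → p y = f}) (by
    intro _ t'
    by_cases h : {y | p y = f} ∈ U t'
    · filter_upwards [h] with y hy _ using hy
    · filter_upwards with y h' using absurd h' h) t
  obtain ⟨a, ha⟩ := chain_branch hy
  have h1 : ∀ i, p (y (i + 1)) = f := fun i => hyΦ i 0 (Nat.zero_le i) (by rw [hy0]; exact hA)
  refine Set.infinite_of_injective_forall_mem (f := fun i => (y (i + 1)).length) ?_ ?_ (hfin a)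
  · intro i i' h
    have := (chain_length hy).injective h
    omega
  · intro i
    change p ((List.range (y (i + 1)).length).map a) = f
    rw [ha]
    exact h1 i

end Pool.Agent.J6H52.Branch
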