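import Mathlib
import Pool.Agent.J6H52.Branch.Ultra

/-! A Ramsey theorem for finite chains in regular subtrees. -/

set_option autoImplicit false

namespace Pool.Agent.J6H52.Branch

open Finset Filter

variable {k : ℕ} {U : List (Fin k) → Ultrafilter (List (Fin k))}

/-- the words of a branch of the regular subtree -/
def nd (w : ℕ → List (Option (Fin k))) (J : ℕ → ℕ) (a : ℕ → Fin k) (l : ℕ) : List (Fin k) :=
  (List.range l).flatMap fun i => (w (J i)).map fun o => o.getD (a i)

theorem nd_succ (w : ℕ → List (Option (Fin k))) (J : ℕ → ℕ) (a : ℕ → Fin k) (l : ℕ) :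
    nd w J a (l + 1) = nd w J a l ++ (w (J l)).map (fun o => o.getD (a l)) := by
  simp only [nd, List.range_succ, List.flatMap_append, List.flatMap_cons, List.flatMap_nil,
    List.append_nil]

/-- **diagonal construction of a regular subtree** for countably many families of invariants -/
theorem columns_gen {V : Ultrafilter (List (Option (Fin k)))}
    (hV : ∀ᶠ w in (V : Filter (List (Option (Fin k)))), none ∈ w)
    {σ : Type} [DecidableEq σ] (init : ℕ → σ) (mark : ℕ → σ → List (Fin k) → Finset σ)
    (Inv : ℕ → σ → List (Fin k) → Prop) (h0 : ∀ i, Inv i (init i) [])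
    (hnext : ∀ i q u, Inv i q u → ∀ b : Fin k, ∀ᶠ w in (V : Filter (List (Option (Fin k)))),
      Inv i q (u ++ w.map (fun o => o.getD b)) ∧ ∀ q' ∈ mark i q (u ++ w.map (fun o => o.getD b)),
        Inv i q' (u ++ w.map (fun o => o.getD b))) :
    ∃ w : ℕ → List (Option (Fin k)), (∀ i, none ∈ w i) ∧
      ∀ J : ℕ → ℕ, StrictMono J → ∀ (a : ℕ → Fin k) (i : ℕ), i ≤ J 0 → ∀ q : ℕ → σ, q 0 = init i →
        (∀ l, q (l + 1) = q l ∨ q (l + 1) ∈ mark i (q l) (nd w J a (l + 1))) →
        ∀ l, Inv i (q l) (nd w J a l) := by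
  classical
  have step : ∀ R : Finset (ℕ × σ × List (Fin k)), ∃ w : List (Option (Fin k)), none ∈ w ∧
      ∀ z ∈ R, Inv z.1 z.2.1 z.2.2 → ∀ b : Fin k,
        Inv z.1 z.2.1 (z.2.2 ++ w.map (fun o => o.getD b)) ∧
        ∀ q' ∈ mark z.1 z.2.1 (z.2.2 ++ w.map (fun o => o.getD b)),
          Inv z.1 q' (z.2.2 ++ w.map (fun o => o.getD b)) := by
    intro R
    have h1 : ∀ᶠ w in (V : Filter (List (Option (Fin k)))),
        ∀ z ∈ R, Inv z.1 z.2.1 z.2.2 → ∀ b : Fin k,
        Inv z.1 z.2.1 (z.2.2 ++ w.map (fun o => o.getD b)) ∧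
        ∀ q' ∈ mark z.1 z.2.1 (z.2.2 ++ w.map (fun o => o.getD b)),
          Inv z.1 q' (z.2.2 ++ w.map (fun o => o.getD b)) := by
      rw [Filter.eventually_all_finset]
      intro z _
      by_cases hI : Inv z.1 z.2.1 z.2.2
      · have h2 := Filter.eventually_all.2 (hnext z.1 z.2.1 z.2.2 hI)
        filter_upwards [h2] with w hw _ using hw
      · filter_upwards with w h using absurd h hI
    obtain ⟨w, hw1, hw2⟩ := (hV.and h1).exists
    exact ⟨w, hw1, hw2⟩
  choose g hg1 hg2 using step
  let nx : Finset (ℕ × σ × List (Fin k)) → Finset (ℕ × σ × List (Fin k)) := fun R =>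
    R ∪ (R ×ˢ (univ : Finset (Fin k))).biUnion (fun z =>
      insert (z.1.1, z.1.2.1, z.1.2.2 ++ (g R).map (fun o => o.getD z.2))
        ((mark z.1.1 z.1.2.1 (z.1.2.2 ++ (g R).map (fun o => o.getD z.2))).image
          (fun q' => (z.1.1, q', z.1.2.2 ++ (g R).map (fun o => o.getD z.2)))))
  let R : ℕ → Finset (ℕ × σ × List (Fin k)) := fun i =>
    Nat.rec {(0, init 0, [])} (fun i R => insert (i + 1, init (i + 1), []) (nx R)) i
  have hR : ∀ i, R (i + 1) = insert (i + 1, init (i + 1), []) (nx (R i)) := fun i => rfl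
  have hRmono : Monotone R := monotone_nat_of_le_succ fun i => by
    rw [hR]
    exact subset_union_left.trans (subset_insert _ _)
  have hRinit : ∀ i, (i, init i, ([] : List (Fin k))) ∈ R i := by
    intro i
    cases i with
    | zero => exact mem_singleton_self _
    | succ i =>
      rw [hR]
      exact mem_insert_self _ _
  have hRu : ∀ i, ∀ z ∈ R i, ∀ b : Fin k,
      (z.1, z.2.1, z.2.2 ++ (g (R i)).map (fun o => o.getD b)) ∈ R (i + 1) := by
    intro i z hz b
    rw [hR, mem_insert, mem_union, mem_biUnion]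
    right; right
    exact ⟨(z, b), mem_product.2 ⟨hz, mem_univ _⟩, mem_insert_self _ _⟩
  have hRm : ∀ i, ∀ z ∈ R i, ∀ b : Fin k,
      ∀ q' ∈ mark z.1 z.2.1 (z.2.2 ++ (g (R i)).map (fun o => o.getD b)),
      (z.1, q', z.2.2 ++ (g (R i)).map (fun o => o.getD b)) ∈ R (i + 1) := by
    intro i z hz b q' hq'
    rw [hR, mem_insert, mem_union, mem_biUnion]
    right; right
    exact ⟨(z, b), mem_product.2 ⟨hz, mem_univ _⟩, mem_insert_of_mem (mem_image_of_mem _ hq')⟩
  refine ⟨fun i => g (R i), fun i => hg1 _, fun J hJ a i hi q hq0 hq l => ?_⟩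
  have key : ∀ l, (i, q l, nd (fun i => g (R i)) J a l) ∈ R (J l) ∧
      Inv i (q l) (nd (fun i => g (R i)) J a l) := by
    intro l
    induction l with
    | zero =>
      rw [hq0]
      exact ⟨hRmono hi (hRinit i), h0 i⟩
    | succ l ih =>
      obtain ⟨ih1, ih2⟩ := ih
      have hJl : J l + 1 ≤ J (l + 1) := hJ (Nat.lt_succ_self l)
      have h1 := hg2 (R (J l)) _ ih1 ih2 (a l)
      have h2 := hq l
      rw [nd_succ] at h2 ⊢
      rcases h2 with h3 | h3
      · rw [h3]
        exact ⟨hRmono hJl (hRu _ _ ih1 _), h1.1⟩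
      · exact ⟨hRmono hJl (hRm _ _ ih1 _ _ h3), h1.2 _ h3⟩
  exact (key l).2

/-- the property `Pr` holds for the patterns obtained by adding the labels of almost all chains of `s` words -/
def D {β : Type} [DecidableEq β] (U : List (Fin k) → Ultrafilter (List (Fin k)))
    (P : List (Fin k) → β) (Pr : Finset β → Prop) : ℕ → Finset β → List (Fin k) → Prop
  | 0, F, _ => Pr F
  | s + 1, F, t => ∀ᶠ y in (U t : Filter (List (Fin k))), D U P Pr s (insert (P y) F) y

theorem dichotomy {β : Type} [DecidableEq β] (P : List (Fin k) → β) (Pr : Finset β → Prop) (s : ℕ) :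
    ∀ (F : Finset β) (t : List (Fin k)), D U P Pr s F t ∨ D U P (fun F => ¬ Pr F) s F t := by
  induction s with
  | zero => intro F t; exact em _
  | succ s ih =>
    intro F t
    have h1 : ∀ᶠ y in (U t : Filter (List (Fin k))), D U P Pr s (insert (P y) F) y ∨
      D U P (fun F => ¬ Pr F) s (insert (P y) F) y := Filter.Eventually.of_forall fun y => ih _ _
    exact Ultrafilter.eventually_or.1 h1

/-- **Ramsey's theorem for chains in a regular subtree**, for countably many labellings and properties -/
theorem chains {V : Ultrafilter (List (Option (Fin k)))}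
    (hV : ∀ᶠ w in (V : Filter (List (Option (Fin k)))), none ∈ w)
    (hcoh : ∀ t s, s ∈ U t → {y | s ∈ U y} ∈ U t)
    (hsub : ∀ t s, s ∈ U t → ∀ b : Fin k, ∀ᶠ w in (V : Filter (List (Option (Fin k)))),
      t ++ w.map (fun o => o.getD b) ∈ s)
    {β : Type} [DecidableEq β] (P : ℕ → List (Fin k) → β) (Pr : ℕ → Finset β → Prop) (s : ℕ → ℕ)
    (hD : ∀ i, D U (P i) (Pr i) (s i) ∅ []) :
    ∃ w : ℕ → List (Option (Fin k)), (∀ i, none ∈ w i) ∧
      ∀ J : ℕ → ℕ, StrictMono J → ∀ (a : ℕ → Fin k) (i : ℕ), i ≤ J 0 → ∀ L : Finset ℕ,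
        L.card = s i → (∀ l ∈ L, 1 ≤ l) → Pr i (L.image fun l => P i (nd w J a l)) := by
  classical
  obtain ⟨w, hw, h⟩ := columns_gen hV (σ := ℕ × Finset β) (fun i => (s i, ∅))
    (fun i q y => if q.1 = 0 then ∅ else {(q.1 - 1, insert (P i y) q.2)})
    (fun i q u => D U (P i) (Pr i) q.1 q.2 u) hD (by
      rintro i ⟨n, F⟩ u hI b
      cases n with
      | zero =>
        refine Filter.Eventually.of_forall fun w => ⟨hI, ?_⟩
        intro q' hq'
        simp at hq'
      | succ n =>
        have hA : {y | D U (P i) (Pr i) n (insert (P i y) F) y} ∈ U u := hI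
        filter_upwards [hsub _ _ hA b, hsub _ _ (hcoh _ _ hA) b] with w h1 h2
        refine ⟨h2, ?_⟩
        intro q' hq'
        simp only [Nat.add_eq_zero_iff, one_ne_zero, and_false, if_false, mem_singleton,
          Nat.add_sub_cancel] at hq'
        rw [hq']
        exact h1)
  refine ⟨w, hw, fun J hJ a i hi L hL hL1 => ?_⟩
  have h1 := h J hJ a i hi (fun l => (s i - (L.filter (· ≤ l)).card,
    (L.filter (· ≤ l)).image fun l => P i (nd w J a l))) (by
      have h0 : L.filter (· ≤ 0) = ∅ := by
        rw [filter_eq_empty_iff]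
        intro l hl h
        have := hL1 l hl
        omega
      simp only [h0, card_empty, Nat.sub_zero, image_empty]) (by
      intro l
      by_cases hl : l + 1 ∈ L
      · right
        have h2 : L.filter (· ≤ l + 1) = insert (l + 1) (L.filter (· ≤ l)) := by
          ext x
          simp only [mem_filter, mem_insert]
          constructor
          · rintro ⟨h3, h4⟩
            by_cases h5 : x = l + 1
            · exact Or.inl h5
            · exact Or.inr ⟨h3, by omega⟩
          · rintro (rfl | ⟨h3, h4⟩)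
            · exact ⟨hl, le_rfl⟩
            · exact ⟨h3, by omega⟩
        have h3 : l + 1 ∉ L.filter (· ≤ l) := by
          rw [mem_filter]
          omega
        have h4 : (insert (l + 1) (L.filter (· ≤ l))).card ≤ s i := by
          rw [← h2, ← hL]
          exact card_filter_le _ _
        rw [card_insert_of_notMem h3] at h4
        simp only
        rw [if_neg (by omega), h2, image_insert, card_insert_of_notMem h3, mem_singleton, Nat.sub_sub]
      · left
        have h2 : L.filter (· ≤ l + 1) = L.filter (· ≤ l) := by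
          ext x
          simp only [mem_filter]
          refine and_congr_right fun h3 => ⟨fun h4 => ?_, fun h4 => by omega⟩
          have : x ≠ l + 1 := fun h => hl (h ▸ h3)
          omega
        simp only [h2]) (L.sup id)
  have h2 : L.filter (· ≤ L.sup id) = L := by
    rw [filter_eq_self]
    intro x hx
    exact le_sup (f := id) hx
  simp only [h2, hL, Nat.sub_self] at h1
  exact h1

/-- the branch through the nodes -/
theorem nd_branch (w : ℕ → List (Option (Fin k))) (hw : ∀ i, none ∈ w i) (J : ℕ → ℕ)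
    (a : ℕ → Fin k) :
    (∀ l, nd w J a l <+: nd w J a (l + 1) ∧ nd w J a l ≠ nd w J a (l + 1)) := by
  intro l
  rw [nd_succ]
  refine ⟨List.prefix_append _ _, fun h => ?_⟩
  have h1 := congrArg List.length h
  rw [List.length_append, List.length_map] at h1
  have h2 := List.length_pos_of_mem (hw (J l))
  omega

end Pool.Agent.J6H52.Branch
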