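import Mathlib
import Pool.Agent.J6H52.Branch.Ultra

/-! Ranks of patterns of linear forms attached to the words of a chain. -/

set_option autoImplicit false

namespace Pool.Agent.J6H52.Branch

open Finset Filter

/-- the patterns from which a pattern without the property `G` is reached; `F` is the pattern, `t` the
current word, a form in row `a` of almost any word `y` beginning with `t` is added -/
inductive Bad {k n : ℕ} (U : List (Fin k) → Ultrafilter (List (Fin k)))
    (P : List (Fin k) → Fin n → ℤ × ℤ) (G : Finset (ℤ × ℤ) → Prop) (S : Finset (Fin n)) :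
    Ordinal.{0} → Finset (ℤ × ℤ) → List (Fin k) → Prop
  | base (α : Ordinal.{0}) (F : Finset (ℤ × ℤ)) (t : List (Fin k)) : ¬ G F → Bad U P G S α F t
  | step (α : Ordinal.{0}) (F : Finset (ℤ × ℤ)) (t : List (Fin k)) (a : Fin n) (ha : a ∈ S)
      (X : Set (List (Fin k))) (hX : X ∈ U t) (b : List (Fin k) → Ordinal.{0})
      (hb : ∀ y ∈ X, b y < α)
      (h : ∀ y ∈ X, Bad U P G S (b y) (insert (P y a) F) y) : Bad U P G S α F t

variable {k n : ℕ} {U : List (Fin k) → Ultrafilter (List (Fin k))}
  {P : List (Fin k) → Fin n → ℤ × ℤ} {G : Finset (ℤ × ℤ) → Prop} {S : Finset (Fin n)}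

theorem good_of_not {F : Finset (ℤ × ℤ)} {t : List (Fin k)} (h : ∀ α, ¬ Bad U P G S α F t) : G F := by
  by_contra hG
  exact h 0 (Bad.base 0 F t hG)

theorem next_of_not {F : Finset (ℤ × ℤ)} {t : List (Fin k)} (h : ∀ α, ¬ Bad U P G S α F t) {a : Fin n}
    (ha : a ∈ S) : {y | ∀ α, ¬ Bad U P G S α (insert (P y a) F) y} ∈ U t := by
  classical
  by_contra hcon
  rw [← Ultrafilter.compl_mem_iff_notMem] at hcon
  have hcon' : {y | ∃ α, Bad U P G S α (insert (P y a) F) y} ∈ U t := by
    filter_upwards [hcon] with y hy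
    simpa using hy
  set b : List (Fin k) → Ordinal.{0} := fun y =>
    if hj : ∃ α, Bad U P G S α (insert (P y a) F) y then hj.choose else 0 with hb
  obtain ⟨M, hM⟩ : BddAbove (Set.range b) := Ordinal.bddAbove_of_small
  refine h (Order.succ M) (Bad.step _ F t a ha _ hcon' b (fun y _ => ?_) (fun y hy => ?_))
  · exact Order.lt_succ_of_le (hM (Set.mem_range_self y))
  · have hy' : ∃ α, Bad U P G S α (insert (P y a) F) y := hy
    simp only [hb]
    rw [dif_pos hy']
    exact hy'.choose_spec

theorem strat (hn : 1 ≤ n) (S : Finset (Fin n)) (F : Finset (ℤ × ℤ)) (t : List (Fin k)) :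
    ∃ (a : Fin n) (X : Set (List (Fin k))), X ∈ U t ∧
      ∀ ρ, Bad U P G S ρ F t → (∀ ρ' < ρ, ¬ Bad U P G S ρ' F t) → G F →
        a ∈ S ∧ ∀ y ∈ X, ∃ β < ρ, Bad U P G S β (insert (P y a) F) y := by
  by_cases h : ∃ ρ, Bad U P G S ρ F t ∧ (∀ ρ' < ρ, ¬ Bad U P G S ρ' F t) ∧ G F
  · obtain ⟨ρ, h1, h2, h3⟩ := h
    cases h1 with
    | base _ _ _ h4 => exact absurd h3 h4
    | step _ _ _ a ha X hX b hb h4 =>
      refine ⟨a, X, hX, fun ρ' h5 h6 _ => ?_⟩
      have h7 : ρ' = ρ := by
        rcases lt_trichotomy ρ' ρ with h8 | h8 | h8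
        · exact absurd h5 (h2 _ h8)
        · exact h8
        · exact absurd (Bad.step _ _ _ a ha X hX b hb h4) (h6 _ h8)
      subst h7
      exact ⟨ha, fun y hy => ⟨b y, hb y hy, h4 y hy⟩⟩
  · refine ⟨⟨0, hn⟩, Set.univ, Filter.univ_mem, fun ρ h1 h2 h3 => absurd ⟨ρ, h1, h2, h3⟩ h⟩

/-- **the regular subtree** -/
theorem columns {V : Ultrafilter (List (Option (Fin k)))}
    (hV : ∀ᶠ w in (V : Filter (List (Option (Fin k)))), none ∈ w)
    (hcoh : ∀ t s, s ∈ U t → {y | s ∈ U y} ∈ U t)
    (hsub : ∀ t s, s ∈ U t → ∀ b : Fin k, ∀ᶠ w in (V : Filter (List (Option (Fin k)))),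
      t ++ w.map (fun o => o.getD b) ∈ s)
    (n : ℕ → ℕ) (P : ∀ j, List (Fin k) → Fin (n j) → ℤ × ℤ) (G : ℕ → Finset (ℤ × ℤ) → Prop)
    (S : ∀ j, Finset (Fin (n j))) (hS : ∀ j α, ¬ Bad U (P j) (G j) (S j) α ∅ []) :
    ∃ w : ℕ → List (Option (Fin k)), (∀ i, none ∈ w i) ∧
      ∀ J : ℕ → ℕ, StrictMono J → ∀ (a : ℕ → Fin k) (j : ℕ), j ≤ J 0 →
        ∀ s : ℕ → Fin (n j), (∀ l, s l ∈ S j) → ∀ L : Finset ℕ, (∀ l ∈ L, 1 ≤ l) →
          G j (L.image fun l => P j ((List.range l).flatMap fun i =>
            (w (J i)).map fun o => o.getD (a i)) (s l)) := by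
  classical
  -- the invariant
  set Inv : ℕ → Finset (ℤ × ℤ) → List (Fin k) → Prop := fun j F u =>
    G j F ∧ ∀ a ∈ S j, {y | ∀ α, ¬ Bad U (P j) (G j) (S j) α (insert (P j y a) F) y} ∈ U u with hInv
  have hgood : ∀ j F t, (∀ α, ¬ Bad U (P j) (G j) (S j) α F t) → Inv j F t := fun j F t h =>
    ⟨good_of_not h, fun a ha => next_of_not h ha⟩
  have hnext : ∀ j F u, Inv j F u → ∀ b : Fin k, ∀ᶠ w in (V : Filter (List (Option (Fin k)))),
      Inv j F (u ++ w.map (fun o => o.getD b)) ∧ ∀ a ∈ S j,
        Inv j (insert (P j (u ++ w.map (fun o => o.getD b)) a) F) (u ++ w.map (fun o => o.getD b)) := by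
    intro j F u hI b
    have h1 : ∀ᶠ w in (V : Filter (List (Option (Fin k)))), ∀ a ∈ S j,
        (∀ α, ¬ Bad U (P j) (G j) (S j) α (insert (P j (u ++ w.map (fun o => o.getD b)) a) F)
          (u ++ w.map (fun o => o.getD b))) ∧
        {y | ∀ α, ¬ Bad U (P j) (G j) (S j) α (insert (P j y a) F) y} ∈
          U (u ++ w.map (fun o => o.getD b)) := by
      rw [Filter.eventually_all_finset]
      intro a ha
      exact (hsub _ _ (hI.2 a ha) b).and (hsub _ _ (hcoh _ _ (hI.2 a ha)) b)
    filter_upwards [h1] with w hw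
    exact ⟨⟨hI.1, fun a ha => (hw a ha).2⟩, fun a ha => hgood _ _ _ (hw a ha).1⟩
  have step : ∀ (i : ℕ) (N : Finset (List (Fin k))), ∃ w : List (Option (Fin k)), none ∈ w ∧
      ∀ j ∈ range (i + 1), ∀ u ∈ N,
        ∀ F ∈ (N.biUnion (fun y => univ.image (P j y))).powerset, Inv j F u → ∀ b : Fin k,
        Inv j F (u ++ w.map (fun o => o.getD b)) ∧ ∀ a ∈ S j,
          Inv j (insert (P j (u ++ w.map (fun o => o.getD b)) a) F) (u ++ w.map (fun o => o.getD b)) := by
    intro i N
    have h1 : ∀ᶠ w in (V : Filter (List (Option (Fin k)))), ∀ j ∈ range (i + 1), ∀ u ∈ N,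
        ∀ F ∈ (N.biUnion (fun y => univ.image (P j y))).powerset, Inv j F u → ∀ b : Fin k,
        Inv j F (u ++ w.map (fun o => o.getD b)) ∧ ∀ a ∈ S j,
          Inv j (insert (P j (u ++ w.map (fun o => o.getD b)) a) F)
            (u ++ w.map (fun o => o.getD b)) := by
      rw [Filter.eventually_all_finset]
      intro j _
      rw [Filter.eventually_all_finset]
      intro u _
      rw [Filter.eventually_all_finset]
      intro F _
      by_cases hI : Inv j F u
      · have h2 := Filter.eventually_all.2 (hnext j F u hI)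
        filter_upwards [h2] with w hw _ using hw
      · filter_upwards with w h using absurd h hI
    obtain ⟨w, hw1, hw2⟩ := (hV.and h1).exists
    exact ⟨w, hw1, hw2⟩
  choose g hg1 hg2 using step
  let N : ℕ → Finset (List (Fin k)) := fun i => Nat.rec {[]}
    (fun i N => N ∪ N.biUnion (fun u => univ.image (fun b => u ++ (g i N).map (fun o => o.getD b)))) i
  have hN : ∀ i, N (i + 1) = N i ∪ (N i).biUnion
    (fun u => univ.image (fun b => u ++ (g i (N i)).map (fun o => o.getD b))) := fun i => rfl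
  have hNmono : Monotone N := monotone_nat_of_le_succ fun i => by
    rw [hN]
    exact subset_union_left
  refine ⟨fun i => g i (N i), fun i => hg1 _ _, fun J hJ a j hj s hs L hL => ?_⟩
  set nd : ℕ → List (Fin k) := fun l => (List.range l).flatMap fun i =>
    (g (J i) (N (J i))).map fun o => o.getD (a i) with hnd
  have hnd0 : nd 0 = [] := rfl
  have hnds : ∀ l, nd (l + 1) = nd l ++ (g (J l) (N (J l))).map (fun o => o.getD (a l)) := by
    intro l
    simp only [hnd, List.range_succ, List.flatMap_append, List.flatMap_cons, List.flatMap_nil,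
      List.append_nil]
  have hjJ : ∀ l, j ≤ J l := fun l => hj.trans (hJ.monotone (Nat.zero_le l))
  have key : ∀ l, nd l ∈ N (J l) ∧
      ((L.filter (· ≤ l)).image fun l => P j (nd l) (s l)) ⊆
        (N (J l)).biUnion (fun y => univ.image (P j y)) ∧
      Inv j ((L.filter (· ≤ l)).image fun l => P j (nd l) (s l)) (nd l) := by
    intro l
    induction l with
    | zero =>
      have h0 : L.filter (· ≤ 0) = ∅ := by
        rw [filter_eq_empty_iff]
        intro l hl h
        have := hL l hl
        omega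
      rw [h0]
      refine ⟨?_, by simp, ?_⟩
      · rw [hnd0]
        exact hNmono (Nat.zero_le _) (by simp [N])
      · simpa [hnd0] using hgood j ∅ [] (hS j)
    | succ l ih =>
      obtain ⟨ih1, ih2, ih3⟩ := ih
      have h1 := hg2 (J l) (N (J l)) j (mem_range.2 (by have := hjJ l; omega)) (nd l) ih1 _
        (mem_powerset.2 ih2) ih3 (a l)
      rw [← hnds] at h1
      have hmem : nd (l + 1) ∈ N (J (l + 1)) := by
        refine hNmono (show J l + 1 ≤ J (l + 1) from hJ (Nat.lt_succ_self l)) ?_
        rw [hN, mem_union, mem_biUnion]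
        right
        refine ⟨nd l, ih1, ?_⟩
        rw [hnds]
        exact mem_image_of_mem _ (mem_univ _)
      have hsubs : (N (J l)).biUnion (fun y => univ.image (P j y)) ⊆
          (N (J (l + 1))).biUnion (fun y => univ.image (P j y)) :=
        biUnion_subset_biUnion_of_subset_left _ (hNmono (hJ.monotone (Nat.le_succ l)))
      by_cases hl : l + 1 ∈ L
      · have h2 : L.filter (· ≤ l + 1) = insert (l + 1) (L.filter (· ≤ l)) := by
          ext x
          simp only [mem_filter, mem_insert]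
          constructor
          · rintro ⟨h3, h4⟩
            by_cases h5 : x = l + 1
            · exact Or.inl h5
            · exact Or.inr ⟨h3, by omega⟩
          · rintro (rfl | ⟨h3, h4⟩)
            · exact ⟨hl, le_rfl⟩
            · exact ⟨h3, by omega⟩
        rw [h2, image_insert]
        refine ⟨hmem, ?_, h1.2 _ (hs _)⟩
        intro x hx
        rcases mem_insert.1 hx with rfl | hx
        · rw [mem_biUnion]
          exact ⟨_, hmem, mem_image_of_mem _ (mem_univ _)⟩
        · exact hsubs (ih2 hx)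
      · have h2 : L.filter (· ≤ l + 1) = L.filter (· ≤ l) := by
          ext x
          simp only [mem_filter]
          refine and_congr_right fun h3 => ⟨fun h4 => ?_, fun h4 => by omega⟩
          have : x ≠ l + 1 := fun h => hl (h ▸ h3)
          omega
        rw [h2]
        exact ⟨hmem, ih2.trans hsubs, h1.1⟩
  have hfin := (key (L.sup id)).2.2.1
  have h2 : L.filter (· ≤ L.sup id) = L := by
    rw [filter_eq_self]
    intro x hx
    exact le_sup (f := id) hx
  rw [h2] at hfin
  exact hfin

end Pool.Agent.J6H52.Branch
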