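import Mathlib
import Pool.Agent.J6H52.Branch.Chains

/-! A Ramsey theorem for properties of finite chains, taken as lists of words, in regular subtrees. -/

set_option autoImplicit false

namespace Pool.Agent.J6H52.Branch

open Finset Filter

variable {k : ℕ} {U : List (Fin k) → Ultrafilter (List (Fin k))}

/-- the property `Pr` holds for the lists obtained by adding almost all chains of `s` words -/
def DL (U : List (Fin k) → Ultrafilter (List (Fin k))) (Pr : List (List (Fin k)) → Prop) :
    ℕ → List (List (Fin k)) → List (Fin k) → Prop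
  | 0, F, _ => Pr F
  | s + 1, F, t => ∀ᶠ y in (U t : Filter (List (Fin k))), DL U Pr s (F ++ [y]) y

theorem dichotomyL (Pr : List (List (Fin k)) → Prop) (s : ℕ) :
    ∀ (F : List (List (Fin k))) (t : List (Fin k)), DL U Pr s F t ∨ DL U (fun F => ¬ Pr F) s F t := by
  induction s with
  | zero => intro F t; exact em _
  | succ s ih =>
    intro F t
    have h1 : ∀ᶠ y in (U t : Filter (List (Fin k))), DL U Pr s (F ++ [y]) y ∨
      DL U (fun F => ¬ Pr F) s (F ++ [y]) y := Filter.Eventually.of_forall fun y => ih _ _
    exact Ultrafilter.eventually_or.1 h1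

/-- **Ramsey's theorem for chains in a regular subtree**, for countably many properties of lists of words -/
theorem chainsL {V : Ultrafilter (List (Option (Fin k)))}
    (hV : ∀ᶠ w in (V : Filter (List (Option (Fin k)))), none ∈ w)
    (hcoh : ∀ t s, s ∈ U t → {y | s ∈ U y} ∈ U t)
    (hsub : ∀ t s, s ∈ U t → ∀ b : Fin k, ∀ᶠ w in (V : Filter (List (Option (Fin k)))),
      t ++ w.map (fun o => o.getD b) ∈ s)
    (Pr : ℕ → List (List (Fin k)) → Prop) (s : ℕ → ℕ)
    (hD : ∀ i, DL U (Pr i) (s i) [] []) :
    ∃ w : ℕ → List (Option (Fin k)), (∀ i, none ∈ w i) ∧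
      ∀ J : ℕ → ℕ, StrictMono J → ∀ (a : ℕ → Fin k) (i : ℕ), i ≤ J 0 → ∀ e : ℕ → ℕ,
        StrictMono e → 1 ≤ e 0 → Pr i ((List.range (s i)).map fun j => nd w J a (e j)) := by
  classical
  obtain ⟨w, hw, h⟩ := columns_gen hV (σ := ℕ × List (List (Fin k))) (fun i => (s i, []))
    (fun i q y => if q.1 = 0 then ∅ else {(q.1 - 1, q.2 ++ [y])})
    (fun i q u => DL U (Pr i) q.1 q.2 u) hD (by
      rintro i ⟨n, F⟩ u hI b
      cases n with
      | zero =>
        refine Filter.Eventually.of_forall fun w => ⟨hI, ?_⟩
        intro q' hq'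
        simp at hq'
      | succ n =>
        have hA : {y | DL U (Pr i) n (F ++ [y]) y} ∈ U u := hI
        filter_upwards [hsub _ _ hA b, hsub _ _ (hcoh _ _ hA) b] with w h1 h2
        refine ⟨h2, ?_⟩
        intro q' hq'
        simp only [Nat.add_eq_zero_iff, one_ne_zero, and_false, if_false, mem_singleton,
          Nat.add_sub_cancel] at hq'
        rw [hq']
        exact h1)
  refine ⟨w, hw, fun J hJ a i hi e he he1 => ?_⟩
  set c : ℕ → ℕ := fun l => ((range (s i)).filter (fun j => e j ≤ l)).card with hc
  have h1 := h J hJ a i hi (fun l => (s i - c l, (List.range (c l)).map fun j => nd w J a (e j))) (by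
      have h0 : c 0 = 0 := by
        rw [hc]
        simp only
        rw [card_eq_zero, filter_eq_empty_iff]
        intro j _ h
        have := he.monotone (Nat.zero_le j)
        omega
      simp only [h0, Nat.sub_zero, List.range_zero, List.map_nil]) (by
      intro l
      by_cases hl : ∃ j, j < s i ∧ e j = l + 1
      · right
        obtain ⟨j0, hj0, hej⟩ := hl
        have hcl : c l = j0 := by
          rw [hc]
          simp only
          have : (range (s i)).filter (fun j => e j ≤ l) = range j0 := by
            ext j
            rw [mem_filter, mem_range, mem_range]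
            have h3 : e j ≤ l ↔ j < j0 := by
              rw [← he.lt_iff_lt, hej]
              omega
            rw [h3]
            omega
          rw [this, card_range]
        have hcl' : c (l + 1) = j0 + 1 := by
          rw [hc]
          simp only
          have : (range (s i)).filter (fun j => e j ≤ l + 1) = range (j0 + 1) := by
            ext j
            rw [mem_filter, mem_range, mem_range]
            have h3 : e j ≤ l + 1 ↔ j ≤ j0 := by
              rw [← hej, he.le_iff_le]
            rw [h3]
            omega
          rw [this, card_range]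
        rw [if_neg (by simp only [hcl]; omega), mem_singleton]
        simp only [hcl, hcl']
        rw [List.range_succ, List.map_append, List.map_cons, List.map_nil, hej, Nat.sub_sub]
      · left
        have h2 : c (l + 1) = c l := by
          rw [hc]
          simp only
          congr 1
          ext j
          rw [mem_filter, mem_filter, mem_range]
          refine and_congr_right fun h3 => ⟨fun h4 => ?_, fun h4 => by omega⟩
          have : e j ≠ l + 1 := fun h => hl ⟨j, h3, h⟩
          omega
        simp only [h2]) (e (s i))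
  have h2 : c (e (s i)) = s i := by
    rw [hc]
    simp only
    rw [filter_true_of_mem, card_range]
    intro j hj
    rw [mem_range] at hj
    exact he.monotone hj.le
  simp only [h2, Nat.sub_self] at h1
  exact h1

/-- a property which holds for some subchain of every infinite chain holds for almost all chains -/
theorem DL_of_exists (hk : 0 < k) {V : Ultrafilter (List (Option (Fin k)))}
    (hV : ∀ᶠ w in (V : Filter (List (Option (Fin k)))), none ∈ w)
    (hcoh : ∀ t s, s ∈ U t → {y | s ∈ U y} ∈ U t)
    (hsub : ∀ t s, s ∈ U t → ∀ b : Fin k, ∀ᶠ w in (V : Filter (List (Option (Fin k)))),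
      t ++ w.map (fun o => o.getD b) ∈ s)
    (Pr : List (List (Fin k)) → Prop) (n : ℕ)
    (h : ∀ v : ℕ → List (Fin k), (∀ i, v i <+: v (i + 1) ∧ v i ≠ v (i + 1)) →
      ∃ e : ℕ → ℕ, StrictMono e ∧ Pr ((List.range n).map fun j => v (e j))) :
    DL U Pr n [] [] := by
  by_contra hcon
  have hneg := (dichotomyL Pr n [] []).resolve_left hcon
  obtain ⟨w, hw, h1⟩ := chainsL hV hcoh hsub (fun _ => fun F => ¬ Pr F) (fun _ => n) (fun _ => hneg)
  have hbr := nd_branch w hw id (fun _ => ⟨0, hk⟩)
  obtain ⟨e, he, hPr⟩ := h (fun l => nd w id (fun _ => ⟨0, hk⟩) (l + 1)) (fun i => hbr (i + 1))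
  exact h1 id strictMono_id (fun _ => ⟨0, hk⟩) 0 le_rfl (fun j => e j + 1)
    (fun a b hab => Nat.add_lt_add_right (he hab) 1) (Nat.le_add_left _ _) hPr

/-- **the general principle**: if each of countably many properties of finite lists of words holds for some
subchain of every infinite chain, then there is a regular subtree for which they hold for all chains far
enough out, on every branch -/
theorem principle (hk : 0 < k) (Pr : ℕ → List (List (Fin k)) → Prop) (s : ℕ → ℕ)
    (h : ∀ i, ∀ v : ℕ → List (Fin k), (∀ j, v j <+: v (j + 1) ∧ v j ≠ v (j + 1)) →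
      ∃ e : ℕ → ℕ, StrictMono e ∧ Pr i ((List.range (s i)).map fun j => v (e j))) :
    ∃ w : ℕ → List (Option (Fin k)), (∀ i, none ∈ w i) ∧
      ∀ J : ℕ → ℕ, StrictMono J → ∀ (a : ℕ → Fin k) (i : ℕ), i ≤ J 0 → ∀ e : ℕ → ℕ,
        StrictMono e → 1 ≤ e 0 → Pr i ((List.range (s i)).map fun j => nd w J a (e j)) := by
  obtain ⟨V, U, hV, hcoh, hsub, _⟩ := exists_ultra hk
  exact chainsL hV hcoh hsub Pr s fun i => DL_of_exists hk hV hcoh hsub (Pr i) (s i) (h i)

end Pool.Agent.J6H52.Branch
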