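import Mathlib
import Pool.Agent.W126.RecSum
import Pool.Agent.J6H52.Branch.Lists

/-! Limit points of consecutive prime gaps along all branches of regular subtrees of trees of real numbers. -/

set_option autoImplicit false

namespace Pool.Agent.J6H52.Branch

open Finset Filter Topology
open Pool.Agent.H256R2.SC (ff)
open Pool.Agent.H312R2.RG.C3 (ff_tendsto)
open Pool.Agent.W126.RecSum (LimH Scale lpH)

/-- a real sequence has a strictly monotone or constant subsequence -/
theorem mono_sub (y : ℕ → ℝ) :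
    ∃ φ : ℕ → ℕ, StrictMono φ ∧ (StrictMono (y ∘ φ) ∨ StrictAnti (y ∘ φ) ∨ ∀ n, y (φ n) = y (φ 0)) := by
  obtain ⟨g, hg⟩ := exists_increasing_or_nonincreasing_subseq (· < ·) y
  rcases hg with hg | hg
  · exact ⟨g, g.strictMono, Or.inl fun a b hab => hg a b hab⟩
  obtain ⟨g', hg'⟩ := exists_increasing_or_nonincreasing_subseq (· > ·) (y ∘ g)
  rcases hg' with hg' | hg'
  · exact ⟨g ∘ g', g.strictMono.comp g'.strictMono, Or.inr (Or.inl fun a b hab => hg' a b hab)⟩
  · refine ⟨g ∘ g', g.strictMono.comp g'.strictMono, Or.inr (Or.inr fun n => ?_)⟩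
    rcases Nat.eq_zero_or_pos n with rfl | hn
    · rfl
    · have h2 := hg (g' 0) (g' n) (g'.strictMono hn)
      have h3 := hg' 0 n hn
      simp only [Function.comp_apply, gt_iff_lt, not_lt] at h2 h3 ⊢
      exact le_antisymm h2 h3

/-- room for `K` positions -/
theorem room' {H : ℝ → ℝ} {y : ℕ → ℝ} (hy : StrictMono y)
    (hA : (∀ c : ℝ, 0 < c → ∀ᶠ x : ℝ in atTop, H x ≤ c * ff x) ∨
      ((∃ C : ℝ, ∀ᶠ x : ℝ in atTop, H x ≤ C * ff x) ∧ ∃ B : ℝ, ∀ n, y n ≤ B))
    (K : ℕ) (c : ℝ) (hc : 0 < c) :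
    ∃ N, ∃ B : ℝ, 0 < B ∧ (∀ᶠ x : ℝ in atTop, B * H x ≤ c * ff x) ∧
      ∀ t ≤ K, y (N + t) - y N ≤ B := by
  rcases hA with h | ⟨⟨C, hC⟩, B', hB'⟩
  · have hB : 0 < y (0 + K) - y 0 + 1 := by
      have := hy.monotone (Nat.zero_le (0 + K))
      linarith
    refine ⟨0, y (0 + K) - y 0 + 1, hB, ?_, ?_⟩
    · filter_upwards [h (c / (y (0 + K) - y 0 + 1)) (by positivity)] with x hx
      calc _ ≤ (y (0 + K) - y 0 + 1) * (c / (y (0 + K) - y 0 + 1) * ff x) :=
            mul_le_mul_of_nonneg_left hx hB.le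
        _ = c * ff x := by field_simp
    · intro t ht
      have := hy.monotone (by omega : 0 + t ≤ 0 + K)
      linarith
  · set B : ℝ := c / (|C| + 1) with hB
    have hB0 : 0 < B := by positivity
    have hbdd : BddAbove (Set.range y) := ⟨B', by rintro _ ⟨n, rfl⟩; exact hB' n⟩
    have hconv : Tendsto y atTop (𝓝 (⨆ n, y n)) := tendsto_atTop_ciSup hy.monotone hbdd
    set L := ⨆ n, y n with hL
    have hle : ∀ n, y n ≤ L := fun n => le_ciSup hbdd n
    obtain ⟨N, hN⟩ := (hconv.eventually (lt_mem_nhds (show L - B < L by linarith))).exists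
    refine ⟨N, B, hB0, ?_, ?_⟩
    · filter_upwards [hC, ff_tendsto.eventually_gt_atTop 0] with x hx hx0
      have h1 : H x ≤ (|C| + 1) * ff x := hx.trans (mul_le_mul_of_nonneg_right
        (by linarith [le_abs_self C]) hx0.le)
      calc B * H x ≤ B * ((|C| + 1) * ff x) := mul_le_mul_of_nonneg_left h1 hB0.le
        _ = c * ff x := by rw [hB]; field_simp
    · intro t _
      have h1 := hle (N + t)
      linarith

/-- an extension of a strictly monotone map of `Fin (m + 1)` to the natural numbers -/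
theorem ext_mono {m K : ℕ} (j : Fin (m + 1) → Fin K) (hj : StrictMono j) :
    ∃ e : ℕ → ℕ, StrictMono e ∧ ∀ i : Fin (m + 1), e i = j i := by
  refine ⟨fun l => if h : l < m + 1 then (j ⟨l, h⟩ : ℕ) else K + l, ?_, ?_⟩
  · refine strictMono_nat_of_lt_succ fun l => ?_
    by_cases h1 : l + 1 < m + 1
    · rw [dif_pos (by omega : l < m + 1), dif_pos h1]
      have h2 : j ⟨l, by omega⟩ < j ⟨l + 1, h1⟩ := hj (by rw [Fin.lt_def]; exact Nat.lt_succ_self l)
      exact h2
    · rw [dif_neg h1]
      by_cases h2 : l < m + 1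
      · rw [dif_pos h2]
        have := (j ⟨l, h2⟩).2
        omega
      · rw [dif_neg h2]
        omega
  · intro i
    have := i.2
    simp only [this, dif_pos]

/-- **selection of limit points from an increasing sequence**, forward vectors -/
theorem selF {H : ℝ → ℝ} (hH : Scale H) (m : ℕ) {q r : ℕ} (hq : Squarefree q) (hr : r.Coprime q)
    {y : ℕ → ℝ} (hy : StrictMono y)
    (hA : (∀ c : ℝ, 0 < c → ∀ᶠ x : ℝ in atTop, H x ≤ c * ff x) ∨
      ((∃ C : ℝ, ∀ᶠ x : ℝ in atTop, H x ≤ C * ff x) ∧ ∃ B : ℝ, ∀ n, y n ≤ B)) :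
    ∃ e : ℕ → ℕ, StrictMono e ∧ (fun i : Fin m => y (e (i + 1)) - y (e i)) ∈ LimH H m q r := by
  obtain ⟨K, c, hc, hlp⟩ := lpH m
  obtain ⟨N, B, hB, hBH, hps⟩ := room' hy hA K c hc
  obtain ⟨j, hj, hl⟩ := hlp H hH B hB hBH q hq r hr (fun t => y (N + t) - y N)
    (fun a b hab => by
      have h1 : (a : ℕ) < b := hab
      have := hy (by omega : N + (a : ℕ) < N + b)
      simp only
      linarith)
    (fun t => ⟨by
      have := hy.monotone (by omega : N ≤ N + (t : ℕ))
      linarith, hps t t.2.le⟩)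
  obtain ⟨e, he, hej⟩ := ext_mono j hj
  refine ⟨fun l => N + e l, fun a b hab => Nat.add_lt_add_left (he hab) N, ?_⟩
  convert hl using 1
  funext i
  have h1 := hej i.succ
  have h2 := hej i.castSucc
  rw [Fin.val_succ] at h1
  rw [Fin.val_castSucc] at h2
  simp only [h1, h2]
  ring

/-- **selection of limit points from an increasing sequence**, reversed vectors -/
theorem selR {H : ℝ → ℝ} (hH : Scale H) (m : ℕ) {q r : ℕ} (hq : Squarefree q) (hr : r.Coprime q)
    {y : ℕ → ℝ} (hy : StrictMono y)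
    (hA : (∀ c : ℝ, 0 < c → ∀ᶠ x : ℝ in atTop, H x ≤ c * ff x) ∨
      ((∃ C : ℝ, ∀ᶠ x : ℝ in atTop, H x ≤ C * ff x) ∧ ∃ B : ℝ, ∀ n, y n ≤ B)) :
    ∃ e : ℕ → ℕ, StrictMono e ∧
      (fun i : Fin m => y (e (m - i)) - y (e (m - i - 1))) ∈ LimH H m q r := by
  obtain ⟨K, c, hc, hlp⟩ := lpH m
  obtain ⟨N, B, hB, hBH, hps⟩ := room' hy hA K c hc
  obtain ⟨j, hj, hl⟩ := hlp H hH B hB hBH q hq r hr (fun t => y (N + K) - y (N + (K - t)))
    (fun a b hab => by
      have h1 : (a : ℕ) < b := hab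
      have h2 := b.2
      have := hy (by omega : N + (K - (b : ℕ)) < N + (K - a))
      simp only
      linarith)
    (fun t => ⟨by
      have := hy.monotone (by omega : N + (K - (t : ℕ)) ≤ N + K)
      linarith, by
      have h1 := hps K le_rfl
      have h2 := hy.monotone (by omega : N ≤ N + (K - (t : ℕ)))
      linarith⟩)
  obtain ⟨e, he, hej⟩ := ext_mono (fun i => Fin.rev (j (Fin.rev i)))
    (fun a b hab => Fin.rev_lt_rev.2 (hj (Fin.rev_lt_rev.2 hab)))
  refine ⟨fun l => N + 1 + e l, fun a b hab => Nat.add_lt_add_left (he hab) _, ?_⟩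
  convert hl using 1
  funext i
  have hi := i.2
  have h1 := hej ⟨m - i, by omega⟩
  have h2 := hej ⟨m - i - 1, by omega⟩
  simp only at h1 h2
  have e1 : Fin.rev (⟨m - i, by omega⟩ : Fin (m + 1)) = i.castSucc := by
    ext
    simp only [Fin.val_rev, Fin.val_castSucc]
    omega
  have e2 : Fin.rev (⟨m - i - 1, by omega⟩ : Fin (m + 1)) = i.succ := by
    ext
    simp only [Fin.val_rev, Fin.val_succ]
    omega
  rw [e1, Fin.val_rev] at h1
  rw [e2, Fin.val_rev] at h2
  have h3 := (j i.castSucc).2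
  have h4 := (j i.succ).2
  simp only [h1, h2]
  rw [show N + 1 + (K - ((j i.castSucc : ℕ) + 1)) = N + (K - j i.castSucc) by omega,
    show N + 1 + (K - ((j i.succ : ℕ) + 1)) = N + (K - j i.succ) by omega]
  ring

/-- the zero vector is a limit point -/
theorem zero_mem {H : ℝ → ℝ} (hH : Scale H) (m : ℕ) {q r : ℕ} (hq : Squarefree q) (hr : r.Coprime q)
    {B₀ : ℝ} (hA : ∀ᶠ x : ℝ in atTop, H x ≤ B₀ * ff x) : (fun _ : Fin m => (0 : ℝ)) ∈ LimH H m q r := by
  obtain ⟨K, c, hc, hlp⟩ := lpH m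
  intro ε hε
  set B : ℝ := c / (|B₀| + 1) with hB
  have hB0 : 0 < B := by positivity
  have hBH : ∀ᶠ x : ℝ in atTop, B * H x ≤ c * ff x := by
    filter_upwards [hA, ff_tendsto.eventually_gt_atTop 0] with x hx hx0
    have h1 : H x ≤ (|B₀| + 1) * ff x := hx.trans (mul_le_mul_of_nonneg_right
      (by linarith [le_abs_self B₀]) hx0.le)
    calc B * H x ≤ B * ((|B₀| + 1) * ff x) := mul_le_mul_of_nonneg_left h1 hB0.le
      _ = c * ff x := by rw [hB]; field_simp
  set δ : ℝ := min (B / (K + 1)) (ε / (2 * (K + 1))) with hδ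
  have hK0 : (0 : ℝ) ≤ K := Nat.cast_nonneg K
  have hδ0 : 0 < δ := by positivity
  have hδB : (K + 1) * δ ≤ B := by
    have h1 : δ ≤ B / (K + 1) := min_le_left _ _
    rw [le_div_iff₀ (by positivity)] at h1
    linarith
  have hδε : 2 * ((K + 1) * δ) ≤ ε := by
    have h1 : δ ≤ ε / (2 * (K + 1)) := min_le_right _ _
    rw [le_div_iff₀ (by positivity)] at h1
    linarith
  obtain ⟨j, hj, hl⟩ := hlp H hH B hB0 hBH q hq r hr (fun t => (t : ℕ) * δ)
    (fun a b hab => by
      have h1 : ((a : ℕ) : ℝ) < (b : ℕ) := by exact_mod_cast hab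
      exact mul_lt_mul_of_pos_right h1 hδ0)
    (fun t => ⟨by positivity, by
      have h1 : ((t : ℕ) : ℝ) ≤ K := by exact_mod_cast t.2.le
      nlinarith⟩)
  refine (hl (ε / 2) (by positivity)).mono fun n hn => ⟨hn.1, fun i => ?_⟩
  have h1 := hn.2 i
  have h2 : |((j i.succ : ℕ) : ℝ) * δ - ((j i.castSucc : ℕ) : ℝ) * δ| ≤ K * δ := by
    have h3 : ((j i.succ : ℕ) : ℝ) ≤ K := by exact_mod_cast (j i.succ).2.le
    have h4 : ((j i.castSucc : ℕ) : ℝ) ≤ K := by exact_mod_cast (j i.castSucc).2.le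
    have h5 : (0 : ℝ) ≤ ((j i.succ : ℕ) : ℝ) := Nat.cast_nonneg _
    have h6 : (0 : ℝ) ≤ ((j i.castSucc : ℕ) : ℝ) := Nat.cast_nonneg _
    rw [abs_le]
    constructor <;> nlinarith
  rw [abs_lt] at h1 ⊢
  rw [abs_le] at h2
  constructor <;> nlinarith [h1.1, h1.2, h2.1, h2.2]

variable {k : ℕ} {U : List (Fin k) → Ultrafilter (List (Fin k))}

theorem DL_and {Pr Pr' : List (List (Fin k)) → Prop} (s : ℕ) : ∀ (F : List (List (Fin k)))
    (t : List (Fin k)), DL U Pr s F t → DL U Pr' s F t → DL U (fun F => Pr F ∧ Pr' F) s F t := by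
  induction s with
  | zero => exact fun F t h h' => ⟨h, h'⟩
  | succ s ih =>
    intro F t h h'
    have h1 : ∀ᶠ y in (U t : Filter (List (Fin k))), DL U Pr s (F ++ [y]) y := h
    have h2 : ∀ᶠ y in (U t : Filter (List (Fin k))), DL U Pr' s (F ++ [y]) y := h'
    have h3 : ∀ᶠ y in (U t : Filter (List (Fin k))), DL U (fun F => Pr F ∧ Pr' F) s (F ++ [y]) y := by
      filter_upwards [h1, h2] with y h4 h5 using ih _ _ h4 h5
    exact h3

/-- the labels of the words of a list, the first `p` words being parameters -/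
def lab (x : List (List (Fin k)) → List (Fin k) → ℝ) (p : ℕ) (F : List (List (Fin k))) (i : ℕ) : ℝ :=
  x (F.take p) (F.getD (p + i) [])

theorem lab_eq (x : List (List (Fin k)) → List (Fin k) → ℝ) (p m : ℕ) (v : ℕ → List (Fin k))
    {i : ℕ} (hi : i ≤ m) : lab x p ((List.range (p + m + 1)).map v) i =
      x ((List.range p).map v) (v (p + i)) := by
  unfold lab
  rw [← List.map_take, List.take_range, Nat.min_eq_left (by omega), List.getD_eq_getElem _ _
    (by rw [List.length_map, List.length_range]; omega), List.getElem_map, List.getElem_range]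

/-- the subchain with the first `p` words and prescribed further words -/
theorem sub_chain (x : List (List (Fin k)) → List (Fin k) → ℝ) (p m : ℕ) (v : ℕ → List (Fin k))
    (g : ℕ → ℕ) (hg : StrictMono g) (Q : (ℕ → ℝ) → Prop)
    (hQ : ∀ y y' : ℕ → ℝ, (∀ i ≤ m, y i = y' i) → Q y → Q y')
    (h : Q fun i => x ((List.range p).map v) (v (p + g i))) :
    ∃ e : ℕ → ℕ, StrictMono e ∧ Q (lab x p ((List.range (p + m + 1)).map fun j => v (e j))) := by
  refine ⟨fun j => if j < p then j else p + g (j - p), ?_, ?_⟩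
  · refine strictMono_nat_of_lt_succ fun j => ?_
    by_cases h1 : j + 1 < p
    · rw [if_pos (by omega : j < p), if_pos h1]
      exact Nat.lt_succ_self j
    · rw [if_neg h1]
      by_cases h2 : j < p
      · rw [if_pos h2]
        omega
      · rw [if_neg h2, show j + 1 - p = (j - p) + 1 by omega]
        exact Nat.add_lt_add_left (hg (Nat.lt_succ_self _)) p
  · refine hQ _ _ (fun i hi => ?_) h
    rw [lab_eq x p m _ hi]
    simp only
    rw [if_neg (by omega : ¬ p + i < p), Nat.add_sub_cancel_left]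
    congr 1
    refine List.map_congr_left fun j hj => ?_
    rw [List.mem_range] at hj
    rw [if_pos hj]

/-- the property of a list of `p + m + 1` words -/
def PP (x : List (List (Fin k)) → List (Fin k) → ℝ) (H : ℝ → ℝ) (q r p m : ℕ)
    (F : List (List (Fin k))) : Prop :=
  ((∀ i < m, lab x p F i < lab x p F (i + 1)) ∨ (∀ i < m, lab x p F (i + 1) < lab x p F i) ∨
    (∀ i < m, lab x p F (i + 1) = lab x p F i)) ∧
    ((fun i : Fin m => |lab x p F (i + 1) - lab x p F i|) ∈ LimH H m q r ∧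
    (fun i : Fin m => |lab x p F (m - i) - lab x p F (m - i - 1)|) ∈ LimH H m q r)

/-- **limit points of consecutive prime gaps along all branches** -/
theorem main_rec (hk : 0 < k) (x : ℕ → List (List (Fin k)) → List (Fin k) → ℝ) (H : ℕ → ℝ → ℝ)
    (q r : ℕ → ℕ)
    (hH : ∀ s, Scale (H s)) (hq : ∀ s, Squarefree (q s)) (hr : ∀ s, (r s).Coprime (q s))
    (hA : ∀ s, (∀ c : ℝ, 0 < c → ∀ᶠ X : ℝ in atTop, H s X ≤ c * ff X) ∨
      ((∃ C : ℝ, ∀ᶠ X : ℝ in atTop, H s X ≤ C * ff X) ∧
        ∀ t (a : ℕ → Fin k), ∃ B : ℝ, ∀ n, |x s t ((List.range n).map a)| ≤ B)) :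
    ∃ w : ℕ → List (Option (Fin k)), (∀ i, none ∈ w i) ∧ ∀ s p m : ℕ, ∃ N : ℕ,
      ∀ J : ℕ → ℕ, StrictMono J → N ≤ J 0 → ∀ (a : ℕ → Fin k) (l : ℕ → ℕ), StrictMono l → 1 ≤ l 0 →
        ∀ y : ℕ → ℝ, (∀ i, y i = x s ((List.range p).map fun j => nd w J a (l j))
          (nd w J a (l (p + i)))) →
        ((∀ i < m, y i < y (i + 1)) ∨ (∀ i < m, y (i + 1) < y i) ∨ (∀ i < m, y (i + 1) = y i)) ∧
        (fun i : Fin m => |y (i + 1) - y i|) ∈ LimH (H s) m (q s) (r s) ∧
        (fun i : Fin m => |y (m - i) - y (m - i - 1)|) ∈ LimH (H s) m (q s) (r s) := by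
  classical
  obtain ⟨V, U, hV, hcoh, hsub, hext⟩ := exists_ultra hk
  -- the boundedness along a chain
  have hbd : ∀ s (v : ℕ → List (Fin k)), (∀ i, v i <+: v (i + 1) ∧ v i ≠ v (i + 1)) → ∀ t,
      (∀ c : ℝ, 0 < c → ∀ᶠ X : ℝ in atTop, H s X ≤ c * ff X) ∨
      ((∃ C : ℝ, ∀ᶠ X : ℝ in atTop, H s X ≤ C * ff X) ∧ ∃ B : ℝ, ∀ n, |x s t (v n)| ≤ B) := by
    intro s v hv t
    obtain ⟨b, hb⟩ := chain_branch hv
    refine (hA s).imp id fun h => ⟨h.1, ?_⟩
    obtain ⟨B, hB⟩ := h.2 t b
    refine ⟨B, fun n => ?_⟩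
    have := hB (v n).length
    rwa [hb] at this
  have hzero : ∀ s m, (fun _ : Fin m => (0 : ℝ)) ∈ LimH (H s) m (q s) (r s) := by
    intro s m
    have h1 : ∃ C : ℝ, ∀ᶠ X : ℝ in atTop, H s X ≤ C * ff X := by
      rcases hA s with h | h
      · exact ⟨1, h 1 one_pos⟩
      · exact h.1
    obtain ⟨C, hC⟩ := h1
    exact zero_mem (hH s) m (hq s) (hr s) hC
  have hM : ∀ s p m, DL U (fun F => (∀ i < m, lab (x s) p F i < lab (x s) p F (i + 1)) ∨
      (∀ i < m, lab (x s) p F (i + 1) < lab (x s) p F i) ∨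
      (∀ i < m, lab (x s) p F (i + 1) = lab (x s) p F i)) (p + m + 1) [] [] := by
    intro s p m
    refine DL_of_exists hk hV hcoh hsub _ _ fun v hv => ?_
    obtain ⟨φ, hφ, h⟩ := mono_sub (fun i => x s ((List.range p).map v) (v (p + i)))
    refine sub_chain (x s) p m v φ hφ (fun y => (∀ i < m, y i < y (i + 1)) ∨
      (∀ i < m, y (i + 1) < y i) ∨ (∀ i < m, y (i + 1) = y i)) ?_ ?_
    · intro y y' hyy h1
      refine h1.imp (fun h2 i hi => ?_) (fun h2 => h2.imp (fun h2 i hi => ?_) (fun h2 i hi => ?_))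
      · rw [← hyy i (by omega), ← hyy (i + 1) (by omega)]
        exact h2 i hi
      · rw [← hyy i (by omega), ← hyy (i + 1) (by omega)]
        exact h2 i hi
      · rw [← hyy i (by omega), ← hyy (i + 1) (by omega)]
        exact h2 i hi
    · refine h.imp (fun h1 i _ => h1 (Nat.lt_succ_self i)) (fun h2 => h2.imp
        (fun h1 i _ => h1 (Nat.lt_succ_self i)) (fun h1 i _ => ?_))
      have h2 := h1 (i + 1)
      have h3 := h1 i
      exact h2.trans h3.symm
  have hF : ∀ s p m, DL U (fun F => (fun i : Fin m => |lab (x s) p F (i + 1) - lab (x s) p F i|) ∈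
      LimH (H s) m (q s) (r s)) (p + m + 1) [] [] := by
    intro s p m
    refine DL_of_exists hk hV hcoh hsub _ _ fun v hv => ?_
    obtain ⟨φ, hφ, h⟩ := mono_sub (fun i => x s ((List.range p).map v) (v (p + i)))
    have key : ∃ e : ℕ → ℕ, StrictMono e ∧ (fun i : Fin m =>
        |x s ((List.range p).map v) (v (p + φ (e (i + 1)))) - x s ((List.range p).map v)
          (v (p + φ (e i)))|) ∈ LimH (H s) m (q s) (r s) := by
      rcases h with h | h | h
      · obtain ⟨e, he, h1⟩ := selF (hH s) m (hq s) (hr s) h ((hbd s v hv _).imp id fun h2 =>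
          ⟨h2.1, h2.2.imp fun B hB n => (le_abs_self _).trans (hB _)⟩)
        refine ⟨e, he, ?_⟩
        convert h1 using 1
        funext i
        exact abs_of_pos (by
          have := h (he (Nat.lt_succ_self (i : ℕ)))
          simp only [Function.comp_apply] at this
          linarith)
      · obtain ⟨e, he, h1⟩ := selF (y := fun i => - x s ((List.range p).map v) (v (p + φ i)))
          (hH s) m (hq s) (hr s) (fun a b hab => neg_lt_neg (h hab)) ((hbd s v hv _).imp id fun h2 =>
          ⟨h2.1, h2.2.imp fun B hB n => (neg_le_abs _).trans (hB _)⟩)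
        refine ⟨e, he, ?_⟩
        convert h1 using 1
        funext i
        rw [abs_of_neg (by
          have := h (he (Nat.lt_succ_self (i : ℕ)))
          simp only [Function.comp_apply] at this
          linarith)]
        ring
      · refine ⟨id, strictMono_id, ?_⟩
        convert hzero s m using 1
        funext i
        have h2 := h (i + 1)
        have h3 := h i
        simp only [id]
        rw [h2, h3, sub_self, abs_zero]
    obtain ⟨e, he, h1⟩ := key
    refine sub_chain (x s) p m v (φ ∘ e) (hφ.comp he) (fun y => (fun i : Fin m =>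
      |y (i + 1) - y i|) ∈ LimH (H s) m (q s) (r s)) ?_ h1
    intro y y' hyy h2
    convert h2 using 1
    funext i
    have := i.2
    rw [← hyy i (by omega), ← hyy (i + 1) (by omega)]
  have hR : ∀ s p m, DL U (fun F => (fun i : Fin m => |lab (x s) p F (m - i) -
      lab (x s) p F (m - i - 1)|) ∈ LimH (H s) m (q s) (r s)) (p + m + 1) [] [] := by
    intro s p m
    refine DL_of_exists hk hV hcoh hsub _ _ fun v hv => ?_
    obtain ⟨φ, hφ, h⟩ := mono_sub (fun i => x s ((List.range p).map v) (v (p + i)))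
    have key : ∃ e : ℕ → ℕ, StrictMono e ∧ (fun i : Fin m =>
        |x s ((List.range p).map v) (v (p + φ (e (m - i)))) - x s ((List.range p).map v)
          (v (p + φ (e (m - i - 1))))|) ∈ LimH (H s) m (q s) (r s) := by
      rcases h with h | h | h
      · obtain ⟨e, he, h1⟩ := selR (hH s) m (hq s) (hr s) h ((hbd s v hv _).imp id fun h2 =>
          ⟨h2.1, h2.2.imp fun B hB n => (le_abs_self _).trans (hB _)⟩)
        refine ⟨e, he, ?_⟩
        convert h1 using 1
        funext i
        have hi := i.2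
        exact abs_of_pos (by
          have := h (he (show m - (i : ℕ) - 1 < m - i by omega))
          simp only [Function.comp_apply] at this
          linarith)
      · obtain ⟨e, he, h1⟩ := selR (y := fun i => - x s ((List.range p).map v) (v (p + φ i)))
          (hH s) m (hq s) (hr s) (fun a b hab => neg_lt_neg (h hab)) ((hbd s v hv _).imp id fun h2 =>
          ⟨h2.1, h2.2.imp fun B hB n => (neg_le_abs _).trans (hB _)⟩)
        refine ⟨e, he, ?_⟩
        convert h1 using 1
        funext i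
        have hi := i.2
        rw [abs_of_neg (by
          have := h (he (show m - (i : ℕ) - 1 < m - i by omega))
          simp only [Function.comp_apply] at this
          linarith)]
        ring
      · refine ⟨id, strictMono_id, ?_⟩
        convert hzero s m using 1
        funext i
        have h2 := h (m - i)
        have h3 := h (m - i - 1)
        simp only [id]
        rw [h2, h3, sub_self, abs_zero]
    obtain ⟨e, he, h1⟩ := key
    refine sub_chain (x s) p m v (φ ∘ e) (hφ.comp he) (fun y => (fun i : Fin m =>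
      |y (m - i) - y (m - i - 1)|) ∈ LimH (H s) m (q s) (r s)) ?_ h1
    intro y y' hyy h2
    convert h2 using 1
    funext i
    have := i.2
    rw [← hyy (m - i) (by omega), ← hyy (m - i - 1) (by omega)]
  obtain ⟨w, hw, h⟩ := chainsL hV hcoh hsub
    (fun i => PP (x (Nat.unpair i).1) (H (Nat.unpair i).1) (q (Nat.unpair i).1) (r (Nat.unpair i).1)
      (Nat.unpair (Nat.unpair i).2).1 (Nat.unpair (Nat.unpair i).2).2)
    (fun i => (Nat.unpair (Nat.unpair i).2).1 + (Nat.unpair (Nat.unpair i).2).2 + 1)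
    (fun i => DL_and _ _ _ (hM _ _ _) (DL_and _ _ _ (hF _ _ _) (hR _ _ _)))
  refine ⟨w, hw, fun s p m => ⟨Nat.pair s (Nat.pair p m), fun J hJ hN a l hl hl1 y hy => ?_⟩⟩
  have h1 := h J hJ a _ hN l hl hl1
  simp only [Nat.unpair_pair] at h1
  have hlab : ∀ i ≤ m, lab (x s) p ((List.range (p + m + 1)).map fun j => nd w J a (l j)) i = y i :=
    fun i hi => by rw [lab_eq (x s) p m _ hi, hy]
  refine ⟨?_, ?_, ?_⟩
  · rcases h1.1 with h2 | h2 | h2
    · left
      intro i hi
      rw [← hlab i (by omega), ← hlab (i + 1) (by omega)]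
      exact h2 i hi
    · right; left
      intro i hi
      rw [← hlab i (by omega), ← hlab (i + 1) (by omega)]
      exact h2 i hi
    · right; right
      intro i hi
      rw [← hlab i (by omega), ← hlab (i + 1) (by omega)]
      exact h2 i hi
  · convert h1.2.1 using 1
    funext i
    have := i.2
    rw [← hlab i (by omega), ← hlab (i + 1) (by omega)]
  · convert h1.2.2 using 1
    funext i
    have := i.2
    rw [← hlab (m - i) (by omega), ← hlab (m - i - 1) (by omega)]

end Pool.Agent.J6H52.Branch
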